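import Pool.Agent.W_MP_7d29a1_pr.Model

/-!
STORM UBd, leaves U4, U5, U6 (deterministic): the cost of moving one source by `u`, in every dimension.
`L0`, `LX` are the forward masses of the sources `0` and `X`, `c = e^{-a}`; `L0 - c LX` solves the same linear
recursion; truncated subtraction in `ℝ≥0∞`.
-/

namespace Pool.Agent.W_7d29a1_UD

open Pool.Agent.W_MP_7d29a1_pr
open scoped ENNReal

variable {d : ℕ}

/-- One row: `W y * ∑ s, p s * f (y - vec s)`. -/
noncomputable def stp (p : Step d → ℝ≥0∞) (W : Site d → ℝ≥0∞) (f : Site d → ℝ≥0∞) :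
    Site d → ℝ≥0∞ := fun y => W y * ∑ s, p s * f (y - vec s)

/-- Forward masses (arrival weights: the row `i + 1` is used by the step `i + 1`). -/
noncomputable def Lr (p : Step d → ℝ≥0∞) (W : ℕ → Site d → ℝ≥0∞) (f : Site d → ℝ≥0∞) :
    ℕ → Site d → ℝ≥0∞
  | 0 => f
  | i + 1 => stp p (W (i + 1)) (Lr p W f i)

/-- The partition function of the future of length `r` of the site `(j, v)`, free end. -/
noncomputable def Fr (p : Step d → ℝ≥0∞) (W : ℕ → Site d → ℝ≥0∞) : ℕ → ℕ → Site d → ℝ≥0∞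
  | 0, _, _ => 1
  | r + 1, j, v => ∑ s, p s * W (j + 1) (v + vec s) * Fr p W r (j + 1) (v + vec s)

/-- Accumulated extra masses. -/
noncomputable def Gr (p : Step d → ℝ≥0∞) (W : ℕ → Site d → ℝ≥0∞) (b : ℕ → Site d → ℝ≥0∞) :
    ℕ → Site d → ℝ≥0∞
  | 0 => b 0
  | i + 1 => fun y => stp p (W (i + 1)) (Gr p W b i) y + b (i + 1) y

theorem stp_mono {p : Step d → ℝ≥0∞} {W : Site d → ℝ≥0∞} {f g : Site d → ℝ≥0∞}
    (h : ∀ y, f y ≤ g y) (y : Site d) : stp p W f y ≤ stp p W g y := by
  unfold stp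
  gcongr with s _
  exact h _

theorem stp_add (p : Step d → ℝ≥0∞) (W : Site d → ℝ≥0∞) (f g : Site d → ℝ≥0∞) (y : Site d) :
    stp p W (fun z => f z + g z) y = stp p W f y + stp p W g y := by
  unfold stp
  rw [← mul_add, ← Finset.sum_add_distrib]
  congr 1
  exact Finset.sum_congr rfl fun s _ => by rw [mul_add]

theorem stp_mul (p : Step d → ℝ≥0∞) (W : Site d → ℝ≥0∞) (c : ℝ≥0∞) (f : Site d → ℝ≥0∞)
    (y : Site d) : stp p W (fun z => c * f z) y = c * stp p W f y := by
  unfold stp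
  have h : ∑ s, p s * (c * f (y - vec s)) = c * ∑ s, p s * f (y - vec s) := by
    rw [Finset.mul_sum]
    refine Finset.sum_congr rfl fun s _ => ?_
    ring
  rw [h]
  ring

/-- One row of the duality. -/
theorem dual1 (p : Step d → ℝ≥0∞) (W : ℕ → Site d → ℝ≥0∞) (f : Site d → ℝ≥0∞) (r j : ℕ) :
    ∑' y, stp p (W (j + 1)) f y * Fr p W r (j + 1) y = ∑' v, f v * Fr p W (r + 1) j v := by
  have h1 : ∀ y, stp p (W (j + 1)) f y * Fr p W r (j + 1) y =
      ∑ s, f (y - vec s) * (p s * W (j + 1) y * Fr p W r (j + 1) y) := by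
    intro y
    unfold stp
    rw [mul_comm (W (j + 1) y), mul_assoc, Finset.sum_mul]
    exact Finset.sum_congr rfl fun s _ => by ring
  have h2 : ∀ v, f v * Fr p W (r + 1) j v =
      ∑ s, f v * (p s * W (j + 1) (v + vec s) * Fr p W r (j + 1) (v + vec s)) := by
    intro v
    show f v * ∑ s, p s * W (j + 1) (v + vec s) * Fr p W r (j + 1) (v + vec s) = _
    rw [Finset.mul_sum]
  simp only [h1, h2]
  rw [Summable.tsum_finsetSum fun _ _ => ENNReal.summable,
    Summable.tsum_finsetSum fun _ _ => ENNReal.summable]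
  refine Finset.sum_congr rfl fun s _ => ?_
  rw [← (Equiv.addRight (vec s)).tsum_eq]
  refine tsum_congr fun v => ?_
  simp

theorem dual (p : Step d → ℝ≥0∞) (W : ℕ → Site d → ℝ≥0∞) (f : Site d → ℝ≥0∞) (n : ℕ) :
    ∀ j ≤ n, ∑' v, Lr p W f j v * Fr p W (n - j) j v = ∑' v, f v * Fr p W n 0 v := by
  intro j
  induction j with
  | zero => intro _; rfl
  | succ j ih =>
    intro hj
    have h1 : n - j = (n - (j + 1)) + 1 := by omega
    rw [← ih (by omega), h1]
    exact dual1 p W (Lr p W f j) (n - (j + 1)) j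

theorem dual_end (p : Step d → ℝ≥0∞) (W : ℕ → Site d → ℝ≥0∞) (f : Site d → ℝ≥0∞) (n : ℕ) :
    ∑' y, Lr p W f n y = ∑' v, f v * Fr p W n 0 v := by
  rw [← dual p W f n n le_rfl, Nat.sub_self]
  exact tsum_congr fun v => by simp [Fr]

theorem dualG (p : Step d → ℝ≥0∞) (W : ℕ → Site d → ℝ≥0∞) (b : ℕ → Site d → ℝ≥0∞) (n : ℕ) :
    ∀ j ≤ n, ∑' v, Gr p W b j v * Fr p W (n - j) j v =
      ∑ i ∈ Finset.range (j + 1), ∑' v, b i v * Fr p W (n - i) i v := by
  intro j
  induction j with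
  | zero =>
    intro _
    rw [Finset.sum_range_one]
    rfl
  | succ j ih =>
    intro hj
    have h1 : n - j = (n - (j + 1)) + 1 := by omega
    rw [Finset.sum_range_succ, ← ih (by omega), h1, ← dual1 p W (Gr p W b j) (n - (j + 1)) j,
      ← ENNReal.tsum_add]
    exact tsum_congr fun v => by
      show (stp p (W (j + 1)) (Gr p W b j) v + b (j + 1) v) * _ = _
      rw [add_mul]

theorem dualG_end (p : Step d → ℝ≥0∞) (W : ℕ → Site d → ℝ≥0∞) (b : ℕ → Site d → ℝ≥0∞) (n : ℕ) :
    ∑' y, Gr p W b n y = ∑ i ∈ Finset.range (n + 1), ∑' v, b i v * Fr p W (n - i) i v := by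
  rw [← dualG p W b n n le_rfl, Nat.sub_self]
  exact tsum_congr fun v => by simp [Fr]

/-- The mass of one source at `z`. -/
noncomputable def src (z : Site d) : Site d → ℝ≥0∞ := Pi.single z 1

theorem tsum_src (z : Site d) (g : Site d → ℝ≥0∞) : ∑' v, src z v * g v = g z := by
  rw [tsum_eq_single z]
  · simp [src]
  · intro v hv
    simp [src, Pi.single_eq_of_ne hv]

/-- The masses of the source `z`: total mass = future of `(0, z)`. -/
theorem tsum_Lr_src (p : Step d → ℝ≥0∞) (W : ℕ → Site d → ℝ≥0∞) (z : Site d) (n : ℕ) :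
    ∑' y, Lr p W (src z) n y = Fr p W n 0 z := by
  rw [dual_end, tsum_src]

/-- Truncated difference of two solutions is a subsolution. -/
theorem stp_tsub (p : Step d → ℝ≥0∞) (W : Site d → ℝ≥0∞) (f g : Site d → ℝ≥0∞) (y : Site d) :
    stp p W f y - stp p W g y ≤ stp p W (fun z => f z - g z) y := by
  rw [tsub_le_iff_right, ← stp_add]
  exact stp_mono (fun z => le_tsub_add) y

/-! ### The two sources -/

section two

variable (p : Step d → ℝ≥0∞) (W W1 : ℕ → Site d → ℝ≥0∞) (X u : Site d) (c : ℝ≥0∞)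

/-- `(L0 - c LX)⁺`. -/
noncomputable def Dp (i : ℕ) (y : Site d) : ℝ≥0∞ :=
  Lr p W (src 0) i y - c * Lr p W (src X) i y

/-- `(L0 - c LX)⁻`. -/
noncomputable def Dm (i : ℕ) (y : Site d) : ℝ≥0∞ :=
  c * Lr p W (src X) i y - Lr p W (src 0) i y

/-- The sites of the row `i` where the source `0` is strictly stronger (left sites). -/
def TT (i : ℕ) : Set (Site d) :=
  {y | c * Lr p W (src X) i y < Lr p W (src 0) i y}

/-- Both sources in the second environment; the second source is at `X - u`. -/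
noncomputable def MM : ℕ → Site d → ℝ≥0∞ :=
  Lr p W1 (fun z => src 0 z + c * src (X - u) z)

/-- The second environment is relabelled from the first one. -/
def Rel : Prop :=
  (∀ i y, 1 ≤ i → y ∈ TT p W X c i → W1 i y = W i y) ∧
  ∀ i y, 1 ≤ i → y ∉ TT p W X c i → y + u ∉ TT p W X c i → W1 i y = W i (y + u)

variable {p W W1 X u c}

theorem Dp_succ (i : ℕ) (y : Site d) :
    Dp p W X c (i + 1) y ≤ stp p (W (i + 1)) (Dp p W X c i) y := by
  have h := stp_tsub p (W (i + 1)) (Lr p W (src 0) i) (fun z => c * Lr p W (src X) i z) y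
  rw [stp_mul] at h
  exact h

theorem Dm_succ (i : ℕ) (y : Site d) :
    Dm p W X c (i + 1) y ≤ stp p (W (i + 1)) (Dm p W X c i) y := by
  have h := stp_tsub p (W (i + 1)) (fun z => c * Lr p W (src X) i z) (Lr p W (src 0) i) y
  rw [stp_mul] at h
  exact h

theorem Dp_of_notMem {i : ℕ} {y : Site d} (h : y ∉ TT p W X c i) : Dp p W X c i y = 0 := by
  exact tsub_eq_zero_of_le (not_lt.1 h)

theorem Dm_of_mem {i : ℕ} {y : Site d} (h : y ∈ TT p W X c i) : Dm p W X c i y = 0 :=
  tsub_eq_zero_of_le (le_of_lt h)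

theorem Dp_le_MM (hR : Rel p W W1 X u c) : ∀ i y, Dp p W X c i y ≤ MM p W1 X u c i y := by
  intro i
  induction i with
  | zero =>
    intro y
    show src 0 y - c * src X y ≤ src 0 y + c * src (X - u) y
    exact tsub_le_self.trans le_self_add
  | succ i ih =>
    intro y
    by_cases hy : y ∈ TT p W X c (i + 1)
    · refine (Dp_succ i y).trans ?_
      show _ ≤ stp p (W1 (i + 1)) (MM p W1 X u c i) y
      have h1 : W1 (i + 1) y = W (i + 1) y := hR.1 (i + 1) y (by omega) hy
      refine (stp_mono ih y).trans (le_of_eq ?_)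
      unfold stp
      rw [h1]
    · rw [Dp_of_notMem hy]
      exact zero_le

theorem Dm_le (hR : Rel p W W1 X u c) {R : ℝ≥0∞} (hR1 : 1 ≤ R) {b : ℕ → Site d → ℝ≥0∞} {n : ℕ}
    (hb : ∀ i ≤ n, ∀ y, y ∉ TT p W X c i → y - u ∈ TT p W X c i →
      Dm p W X c i y ≤ R * Dp p W X c i (y - u) + b i y) :
    ∀ i ≤ n, ∀ y, Dm p W X c i y ≤ R * MM p W1 X u c i (y - u) + Gr p W b i y := by
  have hlost : ∀ i ≤ n, ∀ y, b i y ≤ Gr p W b i y → y ∉ TT p W X c i → y - u ∈ TT p W X c i →
      Dm p W X c i y ≤ R * MM p W1 X u c i (y - u) + Gr p W b i y := by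
    intro i hi y h1 h2 h3
    refine (hb i hi y h2 h3).trans ?_
    exact add_le_add (mul_le_mul_right (Dp_le_MM hR i _) R) h1
  intro i
  induction i with
  | zero =>
    intro hi y
    by_cases hy : y ∈ TT p W X c 0
    · rw [Dm_of_mem hy]
      exact zero_le
    by_cases hyu : y - u ∈ TT p W X c 0
    · exact hlost 0 hi y le_rfl hy hyu
    · refine le_trans ?_ le_self_add
      have h1 : c * src X y ≤ MM p W1 X u c 0 (y - u) := by
        show c * src X y ≤ src 0 (y - u) + c * src (X - u) (y - u)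
        refine le_trans (le_of_eq ?_) le_add_self
        congr 1
        unfold src
        by_cases hX : y = X
        · subst hX; simp
        · rw [Pi.single_eq_of_ne hX, Pi.single_eq_of_ne]
          intro h
          exact hX (sub_left_injective h)
      calc Dm p W X c 0 y ≤ c * src X y := tsub_le_self
        _ ≤ 1 * MM p W1 X u c 0 (y - u) := by rw [one_mul]; exact h1
        _ ≤ _ := mul_le_mul_left hR1 _
  | succ i ih =>
    intro hi y
    by_cases hy : y ∈ TT p W X c (i + 1)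
    · rw [Dm_of_mem hy]
      exact zero_le
    by_cases hyu : y - u ∈ TT p W X c (i + 1)
    · refine hlost (i + 1) hi y ?_ hy hyu
      exact le_add_self
    · have h1 : W1 (i + 1) (y - u) = W (i + 1) y := by
        have h2 := hR.2 (i + 1) (y - u) (by omega) hyu
        rw [sub_add_cancel] at h2
        exact h2 hy
      refine (Dm_succ i y).trans ((stp_mono (ih (by omega)) y).trans ?_)
      rw [stp_add]
      refine add_le_add (le_of_eq ?_) le_self_add
      rw [stp_mul]
      congr 1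
      show _ = stp p (W1 (i + 1)) (MM p W1 X u c i) (y - u)
      unfold stp
      rw [h1]
      congr 1
      exact Finset.sum_congr rfl fun s _ => by rw [sub_right_comm]

theorem tsum_MM (n : ℕ) : ∑' y, MM p W1 X u c n y = Fr p W1 n 0 0 + c * Fr p W1 n 0 (X - u) := by
  unfold MM
  rw [dual_end]
  have h1 : ∀ v, (src 0 v + c * src (X - u) v) * Fr p W1 n 0 v =
      src 0 v * Fr p W1 n 0 v + c * (src (X - u) v * Fr p W1 n 0 v) := by
    intro v
    ring
  simp only [h1]
  rw [ENNReal.tsum_add, ENNReal.tsum_mul_left, tsum_src, tsum_src]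

theorem tsum_sub (f : Site d → ℝ≥0∞) (u : Site d) : ∑' y, f (y - u) = ∑' y, f y :=
  (Equiv.subRight u).tsum_eq f

/-- FAR LEVELS, one side. -/
theorem far_pos (hR : Rel p W W1 X u c) (n : ℕ) :
    Fr p W n 0 0 ≤ (Fr p W1 n 0 0 + c * Fr p W1 n 0 (X - u)) + c * Fr p W n 0 X := by
  rw [← tsum_MM (p := p) (W1 := W1) (X := X) (u := u) (c := c) n, ← tsum_Lr_src p W 0 n,
    ← tsum_Lr_src p W X n, ← ENNReal.tsum_mul_left, ← ENNReal.tsum_add]
  refine ENNReal.tsum_le_tsum fun y => ?_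
  exact le_tsub_add.trans (add_le_add (Dp_le_MM hR n y) le_rfl)

/-- Sum of both parts at the end. -/
theorem end_le (hR : Rel p W W1 X u c) {R : ℝ≥0∞} (hR1 : 1 ≤ R) {b : ℕ → Site d → ℝ≥0∞} {n : ℕ}
    (hb : ∀ i ≤ n, ∀ y, y ∉ TT p W X c i → y - u ∈ TT p W X c i →
      Dm p W X c i y ≤ R * Dp p W X c i (y - u) + b i y) :
    ∑' y, (Dp p W X c n y + Dm p W X c n y) ≤
      (1 + R) * (Fr p W1 n 0 0 + c * Fr p W1 n 0 (X - u)) +
        ∑ i ∈ Finset.range (n + 1), ∑' v, b i v * Fr p W (n - i) i v := by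
  rw [← dualG_end, ← tsum_MM (p := p) (W1 := W1) (X := X) (u := u) (c := c) n, add_mul, one_mul]
  nth_rewrite 2 [← tsum_sub (MM p W1 X u c n) u]
  rw [← ENNReal.tsum_mul_left, ← ENNReal.tsum_add, ← ENNReal.tsum_add]
  refine ENNReal.tsum_le_tsum fun y => ?_
  by_cases hy : y ∈ TT p W X c n
  · rw [Dm_of_mem hy, add_zero, add_assoc]
    exact (Dp_le_MM hR n y).trans le_self_add
  · rw [Dp_of_notMem hy, zero_add, add_assoc]
    exact (Dm_le hR hR1 hb n le_rfl y).trans le_add_self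

open Classical in
/-- COST: levels without ties. The sum over the sites where the local comparison fails stays. -/
theorem cost62 (hR : Rel p W W1 X u c) {Q R1 : ℝ≥0∞} (hQ : 1 ≤ Q) (hR1 : 1 ≤ R1) (n : ℕ)
    (good : ∀ i ≤ n, ∀ y, Lr p W (src 0) i y + c * Lr p W (src X) i y ≤
      Q * (Dp p W X c i y + Dm p W X c i y)) :
    Fr p W n 0 0 + c * Fr p W n 0 X ≤
      Q * ((1 + R1 * Q) * (Fr p W1 n 0 0 + c * Fr p W1 n 0 (X - u)) +
        ∑ i ∈ Finset.range (n + 1), ∑' v, (if v ∉ TT p W X c i ∧ v - u ∈ TT p W X c i ∧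
          ¬ Lr p W (src X) i v ≤ R1 * Lr p W (src X) i (v - u) then c * Lr p W (src X) i v
          else 0) * Fr p W (n - i) i v) := by
  refine le_trans ?_ (mul_le_mul_right (end_le hR (one_le_mul hR1 hQ) ?_) Q)
  · rw [← ENNReal.tsum_mul_left, ← tsum_Lr_src p W 0 n, ← tsum_Lr_src p W X n,
      ← ENNReal.tsum_mul_left, ← ENNReal.tsum_add]
    exact ENNReal.tsum_le_tsum fun y => good n le_rfl y
  · intro i hi v hv hvu
    by_cases h : Lr p W (src X) i v ≤ R1 * Lr p W (src X) i (v - u)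
    · refine le_trans ?_ le_self_add
      have h1 : Lr p W (src 0) i (v - u) ≤ Q * Dp p W X c i (v - u) := by
        have h2 := good i hi (v - u)
        rw [Dm_of_mem hvu, add_zero] at h2
        exact le_self_add.trans h2
      calc Dm p W X c i v ≤ c * Lr p W (src X) i v := tsub_le_self
        _ ≤ c * (R1 * Lr p W (src X) i (v - u)) := mul_le_mul_right h c
        _ = R1 * (c * Lr p W (src X) i (v - u)) := by ring
        _ ≤ R1 * Lr p W (src 0) i (v - u) := mul_le_mul_right (le_of_lt hvu) R1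
        _ ≤ R1 * (Q * Dp p W X c i (v - u)) := mul_le_mul_right h1 R1
        _ = R1 * Q * Dp p W X c i (v - u) := by ring
    · rw [if_pos ⟨hv, hvu, h⟩]
      exact tsub_le_self.trans le_add_self

open Classical in
/-- FAR LEVELS, the other side. -/
theorem far_neg (hR : Rel p W W1 X u c) (R1 : ℝ≥0∞) (n : ℕ) :
    c * Fr p W n 0 X ≤
      (Fr p W1 n 0 0 + c * Fr p W1 n 0 (X - u)) + (1 + (n + 1) * R1 ^ 2) * Fr p W n 0 0 +
        ∑ i ∈ Finset.range (n + 1), ∑' v, (if v ∉ TT p W X c i ∧ v - u ∈ TT p W X c i ∧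
          ¬ (Lr p W (src X) i v ≤ R1 * Lr p W (src X) i (v - u) ∧
            Fr p W (n - i) i v ≤ R1 * Fr p W (n - i) i (v - u)) then c * Lr p W (src X) i v
          else 0) * Fr p W (n - i) i v := by
  set b : ℕ → Site d → ℝ≥0∞ := fun i v =>
    if v ∉ TT p W X c i ∧ v - u ∈ TT p W X c i then c * Lr p W (src X) i v else 0 with hb
  have h1 : ∀ y, Dm p W X c n y ≤ 1 * MM p W1 X u c n (y - u) + Gr p W b n y := by
    refine Dm_le hR le_rfl ?_ n le_rfl
    intro i _ v hv hvu
    rw [hb]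
    beta_reduce
    rw [if_pos ⟨hv, hvu⟩]
    exact tsub_le_self.trans le_add_self
  have h2 : c * Fr p W n 0 X ≤ (Fr p W1 n 0 0 + c * Fr p W1 n 0 (X - u)) + Fr p W n 0 0 +
      ∑ i ∈ Finset.range (n + 1), ∑' v, b i v * Fr p W (n - i) i v := by
    rw [← dualG_end, ← tsum_MM (p := p) (W1 := W1) (X := X) (u := u) (c := c) n,
      ← tsum_sub (MM p W1 X u c n) u, ← tsum_Lr_src p W X n, ← tsum_Lr_src p W 0 n,
      ← ENNReal.tsum_mul_left, ← ENNReal.tsum_add, ← ENNReal.tsum_add]
    refine ENNReal.tsum_le_tsum fun y => ?_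
    calc c * Lr p W (src X) n y ≤ Dm p W X c n y + Lr p W (src 0) n y := le_tsub_add
      _ ≤ (1 * MM p W1 X u c n (y - u) + Gr p W b n y) + Lr p W (src 0) n y :=
          add_le_add (h1 y) le_rfl
      _ = _ := by ring
  have h3 : ∀ i ∈ Finset.range (n + 1), ∑' v, b i v * Fr p W (n - i) i v ≤
      R1 ^ 2 * Fr p W n 0 0 + ∑' v, (if v ∉ TT p W X c i ∧ v - u ∈ TT p W X c i ∧
          ¬ (Lr p W (src X) i v ≤ R1 * Lr p W (src X) i (v - u) ∧
            Fr p W (n - i) i v ≤ R1 * Fr p W (n - i) i (v - u)) then c * Lr p W (src X) i v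
          else 0) * Fr p W (n - i) i v := by
    intro i hi
    have hin : i ≤ n := by
      have := Finset.mem_range.1 hi
      omega
    have h4 : Fr p W n 0 0 =
        ∑' v, Lr p W (src 0) i (v - u) * Fr p W (n - i) i (v - u) := by
      rw [tsum_sub (fun v => Lr p W (src 0) i v * Fr p W (n - i) i v) u, dual p W (src 0) n i hin,
        tsum_src]
    rw [h4, ← ENNReal.tsum_mul_left, ← ENNReal.tsum_add]
    refine ENNReal.tsum_le_tsum fun v => ?_
    rw [hb]
    beta_reduce
    by_cases hv : v ∉ TT p W X c i ∧ v - u ∈ TT p W X c i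
    · rw [if_pos hv]
      by_cases hg : Lr p W (src X) i v ≤ R1 * Lr p W (src X) i (v - u) ∧
            Fr p W (n - i) i v ≤ R1 * Fr p W (n - i) i (v - u)
      · refine le_trans ?_ le_self_add
        calc c * Lr p W (src X) i v * Fr p W (n - i) i v
            ≤ c * (R1 * Lr p W (src X) i (v - u)) * (R1 * Fr p W (n - i) i (v - u)) :=
              mul_le_mul' (mul_le_mul' le_rfl hg.1) hg.2
          _ = R1 ^ 2 * ((c * Lr p W (src X) i (v - u)) * Fr p W (n - i) i (v - u)) := by ring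
          _ ≤ _ := mul_le_mul' le_rfl (mul_le_mul' (le_of_lt hv.2) le_rfl)
      · refine le_trans (le_of_eq ?_) le_add_self
        rw [if_pos ⟨hv.1, hv.2, hg⟩]
    · rw [if_neg hv, zero_mul]
      exact zero_le
  refine h2.trans ?_
  have h5 := Finset.sum_le_sum h3
  rw [Finset.sum_add_distrib, Finset.sum_const, Finset.card_range, nsmul_eq_mul] at h5
  refine (add_le_add le_rfl h5).trans (le_of_eq ?_)
  push_cast
  ring

end two

end Pool.Agent.W_7d29a1_UD
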