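import Mathlib

/-!
PROJECT U (MP_7d29a1_pr), the deterministic half of the coupling, in the form of helper62 (board 100015): the differences
`L0 - c LX` and `c LX - L0` (truncated) solve the same linear recursion, so that no path classes are needed. Everything is
over an additive group `S` with a finite family of steps `st`. (helper27)
-/

set_option autoImplicit false

namespace Pool.Agent.W_7d29a1_UD27

open scoped ENNReal

noncomputable section

variable {S ι : Type*} [AddCommGroup S] [Fintype ι]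

/-! ### Forward and backward recursions -/

/-- The forward masses (arrival weights: the row `i + 1` is used by the step `i + 1`). -/
def Lr (st : ι → S) (p : ι → ℝ≥0∞) (W : ℕ → S → ℝ≥0∞) (f : S → ℝ≥0∞) : ℕ → S → ℝ≥0∞
  | 0 => f
  | i + 1 => fun y => W (i + 1) y * ∑ s, p s * Lr st p W f i (y - st s)

/-- The mass of the future of length `r` of the point `(j, v)`. -/
def Fr (st : ι → S) (p : ι → ℝ≥0∞) (W : ℕ → S → ℝ≥0∞) : ℕ → ℕ → S → ℝ≥0∞
  | 0 => fun _ _ => 1
  | r + 1 => fun j v => ∑ s, p s * W (j + 1) (v + st s) * Fr st p W r (j + 1) (v + st s)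

theorem Lr_zero (st : ι → S) (p : ι → ℝ≥0∞) (W : ℕ → S → ℝ≥0∞) (f : S → ℝ≥0∞) (y : S) : Lr st p W f 0 y = f y := rfl

theorem Lr_succ (st : ι → S) (p : ι → ℝ≥0∞) (W : ℕ → S → ℝ≥0∞) (f : S → ℝ≥0∞) (i : ℕ) (y : S) :
    Lr st p W f (i + 1) y = W (i + 1) y * ∑ s, p s * Lr st p W f i (y - st s) := rfl

theorem Fr_zero (st : ι → S) (p : ι → ℝ≥0∞) (W : ℕ → S → ℝ≥0∞) (j : ℕ) (v : S) : Fr st p W 0 j v = 1 := rfl

theorem Fr_succ (st : ι → S) (p : ι → ℝ≥0∞) (W : ℕ → S → ℝ≥0∞) (r j : ℕ) (v : S) :
    Fr st p W (r + 1) j v = ∑ s, p s * W (j + 1) (v + st s) * Fr st p W r (j + 1) (v + st s) := rfl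

/-- Translation invariance of the sums. -/
theorem tsum_sub (g : S → ℝ≥0∞) (a : S) : ∑' y, g (y - a) = ∑' y, g y :=
  (Equiv.subRight a).tsum_eq g

/-- **One step of the duality** between the forward and the backward recursion, for an arbitrary mass `g`. -/
theorem step_dual (st : ι → S) (p : ι → ℝ≥0∞) (W : ℕ → S → ℝ≥0∞) (g : S → ℝ≥0∞) (r j : ℕ) :
    ∑' y, (W (j + 1) y * ∑ s, p s * g (y - st s)) * Fr st p W r (j + 1) y = ∑' v, g v * Fr st p W (r + 1) j v := by
  have h1 : ∀ y, (W (j + 1) y * ∑ s, p s * g (y - st s)) * Fr st p W r (j + 1) y =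
      ∑ s, p s * g (y - st s) * (W (j + 1) (y - st s + st s) * Fr st p W r (j + 1) (y - st s + st s)) := fun y => by
    simp only [sub_add_cancel]
    rw [← Finset.sum_mul]
    ring
  have h2 : ∀ v, g v * Fr st p W (r + 1) j v =
      ∑ s, p s * g v * (W (j + 1) (v + st s) * Fr st p W r (j + 1) (v + st s)) := fun v => by
    rw [Fr_succ, Finset.mul_sum]
    refine Finset.sum_congr rfl fun s _ => ?_
    ring
  simp only [h1, h2]
  rw [Summable.tsum_finsetSum (fun _ _ => ENNReal.summable), Summable.tsum_finsetSum (fun _ _ => ENNReal.summable)]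
  refine Finset.sum_congr rfl fun s _ => ?_
  exact tsum_sub (fun v => p s * g v * (W (j + 1) (v + st s) * Fr st p W r (j + 1) (v + st s))) (st s)

/-- **Duality**: the total mass at the time `j + r` is the mass at the time `j` times the future. -/
theorem dual (st : ι → S) (p : ι → ℝ≥0∞) (W : ℕ → S → ℝ≥0∞) (f : S → ℝ≥0∞) : ∀ r j : ℕ,
    ∑' y, Lr st p W f (j + r) y = ∑' v, Lr st p W f j v * Fr st p W r j v
  | 0, j => by simp only [Fr_zero, mul_one, add_zero]
  | r + 1, j => by
    rw [← step_dual st p W (Lr st p W f j) r j]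
    have h := dual st p W f r (j + 1)
    rw [show j + (r + 1) = j + 1 + r by ring, h]
    rfl

/-- Duality between the times `j` and `n`. -/
theorem dual_le (st : ι → S) (p : ι → ℝ≥0∞) (W : ℕ → S → ℝ≥0∞) (f : S → ℝ≥0∞) {j n : ℕ} (h : j ≤ n) :
    ∑' y, Lr st p W f n y = ∑' v, Lr st p W f j v * Fr st p W (n - j) j v := by
  rw [← dual, Nat.add_sub_cancel' h]

/-! ### Subsolutions with a source -/

/-- **Duhamel**: if `G` is a subsolution of the recursion with the source `b`, then its total mass at the time `n` is at most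
the sum of the sources times their futures. -/
theorem duhamel (st : ι → S) (p : ι → ℝ≥0∞) (W : ℕ → S → ℝ≥0∞) (G b : ℕ → S → ℝ≥0∞) (h0 : ∀ y, G 0 y ≤ b 0 y)
    (h1 : ∀ i y, G (i + 1) y ≤ b (i + 1) y + W (i + 1) y * ∑ s, p s * G i (y - st s)) (n : ℕ) :
    ∑' y, G n y ≤ ∑ i ∈ Finset.range (n + 1), ∑' v, b i v * Fr st p W (n - i) i v := by
  have key : ∀ j, j ≤ n → ∑' y, G j y * Fr st p W (n - j) j y ≤
      ∑ i ∈ Finset.range (j + 1), ∑' v, b i v * Fr st p W (n - i) i v := by
    intro j
    induction j with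
    | zero =>
      intro _
      rw [Finset.sum_range_one]
      exact ENNReal.tsum_le_tsum fun y => mul_le_mul_left (h0 y) _
    | succ j ih =>
      intro hj
      have h2 := ih (by omega)
      rw [Finset.sum_range_succ]
      have h3 : ∑' y, G (j + 1) y * Fr st p W (n - (j + 1)) (j + 1) y ≤
          ∑' y, (b (j + 1) y * Fr st p W (n - (j + 1)) (j + 1) y +
            (W (j + 1) y * ∑ s, p s * G j (y - st s)) * Fr st p W (n - (j + 1)) (j + 1) y) := by
        refine ENNReal.tsum_le_tsum fun y => ?_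
        rw [← add_mul]
        exact mul_le_mul_left (h1 j y) _
      refine h3.trans ?_
      rw [ENNReal.tsum_add, step_dual, add_comm, show n - (j + 1) + 1 = n - j by omega]
      exact add_le_add h2 le_rfl
  have h2 := key n le_rfl
  simp only [Nat.sub_self, Fr_zero, mul_one] at h2
  refine h2.trans (le_of_eq ?_)
  refine Finset.sum_congr rfl fun i _ => ?_
  rfl

/-! ### The coupling -/

/-- The sites of the source `0`: the mass of `0` is positive and at least `c` times the mass of `X`. -/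
def Ts (st : ι → S) (p : ι → ℝ≥0∞) (W : ℕ → S → ℝ≥0∞) (f0 fX : S → ℝ≥0∞) (c : ℝ≥0∞) (i : ℕ) : Set S :=
  {y | Lr st p W f0 i y ≠ 0 ∧ c * Lr st p W fX i y ≤ Lr st p W f0 i y}

/-- The lost sites: their weight is not used by the new environment. -/
def lost (st : ι → S) (p : ι → ℝ≥0∞) (W : ℕ → S → ℝ≥0∞) (f0 fX : S → ℝ≥0∞) (c : ℝ≥0∞) (u : S) (i : ℕ) : Set S :=
  {v | v ∉ Ts st p W f0 fX c i ∧ v - u ∈ Ts st p W f0 fX c i}

/-- The lost sites without the backward Harnack inequality. -/
def bad (st : ι → S) (p : ι → ℝ≥0∞) (W : ℕ → S → ℝ≥0∞) (f0 fX : S → ℝ≥0∞) (c : ℝ≥0∞) (u : S) (R1 : ℝ≥0∞) (i : ℕ) :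
    Set S :=
  {v | v ∈ lost st p W f0 fX c u i ∧ ¬ Lr st p W fX i v ≤ R1 * Lr st p W fX i (v - u)}

/-- The lost sites without the backward or without the forward Harnack inequality. -/
def bad2 (st : ι → S) (p : ι → ℝ≥0∞) (W : ℕ → S → ℝ≥0∞) (f0 fX : S → ℝ≥0∞) (c : ℝ≥0∞) (u : S) (R1 R2 : ℝ≥0∞)
    (n i : ℕ) : Set S :=
  {v | v ∈ lost st p W f0 fX c u i ∧ ¬ (Lr st p W fX i v ≤ R1 * Lr st p W fX i (v - u) ∧
    Fr st p W (n - i) i v ≤ R2 * Fr st p W (n - i) i (v - u))}

/-- The masses of the new environment `W1`: the sources `0` (weight `1`) and `X - u` (weight `c`). -/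
def Mr (st : ι → S) (p : ι → ℝ≥0∞) (W1 : ℕ → S → ℝ≥0∞) (f0 fX : S → ℝ≥0∞) (c : ℝ≥0∞) (u : S) : ℕ → S → ℝ≥0∞ :=
  Lr st p W1 (fun y => f0 y + c * fX (y + u))

section

variable {st : ι → S} {p : ι → ℝ≥0∞} {W W1 : ℕ → S → ℝ≥0∞} {f0 fX : S → ℝ≥0∞} {c : ℝ≥0∞} {u : S}

/-- **The positive part**: the new environment keeps the mass `L0 - c LX`. -/
theorem dplus (h1 : ∀ i y, y ∈ Ts st p W f0 fX c i → W1 i y = W i y) : ∀ i y,
    Lr st p W f0 i y ≤ Mr st p W1 f0 fX c u i y + c * Lr st p W fX i y
  | 0, y => by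
    show f0 y ≤ (f0 y + c * fX (y + u)) + c * fX y
    exact le_self_add.trans le_self_add
  | i + 1, y => by
    by_cases h : y ∈ Ts st p W f0 fX c (i + 1)
    · have e1 := h1 (i + 1) y h
      show W (i + 1) y * ∑ s, p s * Lr st p W f0 i (y - st s) ≤
        W1 (i + 1) y * ∑ s, p s * Mr st p W1 f0 fX c u i (y - st s) +
          c * (W (i + 1) y * ∑ s, p s * Lr st p W fX i (y - st s))
      rw [e1, mul_left_comm c, ← mul_add]
      refine mul_le_mul_right ?_ _
      rw [Finset.mul_sum, ← Finset.sum_add_distrib]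
      refine Finset.sum_le_sum fun s _ => ?_
      rw [mul_left_comm c, ← mul_add]
      exact mul_le_mul_right (dplus h1 i _) _
    · by_cases h2 : Lr st p W f0 (i + 1) y = 0
      · rw [h2]
        exact bot_le
      · have h3 : ¬ c * Lr st p W fX (i + 1) y ≤ Lr st p W f0 (i + 1) y := fun h4 => h ⟨h2, h4⟩
        exact (not_le.1 h3).le.trans le_add_self

/-- The solution of the recursion with the source `b`. -/
def Er (st : ι → S) (p : ι → ℝ≥0∞) (W : ℕ → S → ℝ≥0∞) (b : ℕ → S → ℝ≥0∞) : ℕ → S → ℝ≥0∞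
  | 0 => b 0
  | i + 1 => fun y => b (i + 1) y + W (i + 1) y * ∑ s, p s * Er st p W b i (y - st s)

/-- **The negative part**: the shifted masses of the new environment dominate `c LX - L0` up to the sources at the lost
sites. -/
theorem dminus {R : ℝ≥0∞} (hR : 1 ≤ R) {b : ℕ → S → ℝ≥0∞}
    (h2 : ∀ i y, y ∉ Ts st p W f0 fX c i → y + u ∉ Ts st p W f0 fX c i → W1 i y = W i (y + u))
    (hb : ∀ i v, v ∈ lost st p W f0 fX c u i → c * Lr st p W fX i v ≤
      Lr st p W f0 i v + R * Mr st p W1 f0 fX c u i (v - u) + b i v) : ∀ i y,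
    c * Lr st p W fX i y ≤ Lr st p W f0 i y + R * Mr st p W1 f0 fX c u i (y - u) + Er st p W b i y
  | 0, y => by
    show c * fX y ≤ f0 y + R * (f0 (y - u) + c * fX (y - u + u)) + b 0 y
    rw [sub_add_cancel]
    calc c * fX y ≤ f0 (y - u) + c * fX y := le_add_self
      _ ≤ R * (f0 (y - u) + c * fX y) := le_mul_of_one_le_left bot_le hR
      _ ≤ f0 y + R * (f0 (y - u) + c * fX y) := le_add_self
      _ ≤ _ := le_self_add
  | i + 1, y => by
    by_cases hT : y ∈ Ts st p W f0 fX c (i + 1)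
    · exact hT.2.trans (le_self_add.trans le_self_add)
    · by_cases hu : y - u ∈ Ts st p W f0 fX c (i + 1)
      · refine (hb (i + 1) y ⟨hT, hu⟩).trans (add_le_add le_rfl ?_)
        exact le_self_add
      · have e1 := h2 (i + 1) (y - u) hu (by rwa [sub_add_cancel])
        rw [sub_add_cancel] at e1
        show c * (W (i + 1) y * ∑ s, p s * Lr st p W fX i (y - st s)) ≤
          W (i + 1) y * ∑ s, p s * Lr st p W f0 i (y - st s) +
            R * (W1 (i + 1) (y - u) * ∑ s, p s * Mr st p W1 f0 fX c u i (y - u - st s)) +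
              (b (i + 1) y + W (i + 1) y * ∑ s, p s * Er st p W b i (y - st s))
        rw [e1]
        have e2 : ∀ s, y - u - st s = y - st s - u := fun s => by abel
        simp only [e2]
        have h3 : c * (W (i + 1) y * ∑ s, p s * Lr st p W fX i (y - st s)) ≤
          W (i + 1) y * ∑ s, p s * Lr st p W f0 i (y - st s) +
            R * (W (i + 1) y * ∑ s, p s * Mr st p W1 f0 fX c u i (y - st s - u)) +
              W (i + 1) y * ∑ s, p s * Er st p W b i (y - st s) := by
          rw [mul_left_comm c, mul_left_comm R, ← mul_add, ← mul_add]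
          refine mul_le_mul_right ?_ _
          simp only [Finset.mul_sum]
          rw [← Finset.sum_add_distrib, ← Finset.sum_add_distrib]
          refine Finset.sum_le_sum fun s _ => ?_
          rw [mul_left_comm c, mul_left_comm R, ← mul_add, ← mul_add]
          exact mul_le_mul_right (dminus hR h2 hb i _) _
        refine h3.trans (add_le_add le_rfl ?_)
        exact le_add_self

theorem tsum_Er_le (b : ℕ → S → ℝ≥0∞) (n : ℕ) :
    ∑' y, Er st p W b n y ≤ ∑ i ∈ Finset.range (n + 1), ∑' v, b i v * Fr st p W (n - i) i v :=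
  duhamel st p W (Er st p W b) b (fun _ => le_rfl) (fun _ _ => le_rfl) n

/-- The sum of the truncated negative parts. -/
theorem tsum_dminus_le {R : ℝ≥0∞} (hR : 1 ≤ R) {b : ℕ → S → ℝ≥0∞}
    (h2 : ∀ i y, y ∉ Ts st p W f0 fX c i → y + u ∉ Ts st p W f0 fX c i → W1 i y = W i (y + u))
    (hb : ∀ i v, v ∈ lost st p W f0 fX c u i → c * Lr st p W fX i v ≤
      Lr st p W f0 i v + R * Mr st p W1 f0 fX c u i (v - u) + b i v) (n : ℕ) :
    ∑' y, (c * Lr st p W fX n y - Lr st p W f0 n y) ≤ R * ∑' y, Mr st p W1 f0 fX c u n y +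
      ∑ i ∈ Finset.range (n + 1), ∑' v, b i v * Fr st p W (n - i) i v := by
  have h3 : ∀ y, c * Lr st p W fX n y - Lr st p W f0 n y ≤
      R * Mr st p W1 f0 fX c u n (y - u) + Er st p W b n y := fun y => by
    rw [tsub_le_iff_right]
    refine (dminus hR h2 hb n y).trans (le_of_eq ?_)
    ring
  refine (ENNReal.tsum_le_tsum h3).trans ?_
  rw [ENNReal.tsum_add, ENNReal.tsum_mul_left, tsum_sub (fun y => Mr st p W1 f0 fX c u n y) u]
  exact add_le_add le_rfl (tsum_Er_le b n)

/-- The sum of the truncated positive parts. -/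
theorem tsum_dplus_le (h1 : ∀ i y, y ∈ Ts st p W f0 fX c i → W1 i y = W i y) (n : ℕ) :
    ∑' y, (Lr st p W f0 n y - c * Lr st p W fX n y) ≤ ∑' y, Mr st p W1 f0 fX c u n y :=
  ENNReal.tsum_le_tsum fun y => tsub_le_iff_right.2 (dplus h1 n y)

/-! ### The three inequalities -/

/-- **COST**: at a good level (with the constant `Q`), the total mass of the old environment is at most the total mass of the
new one times `Q (1 + R1 Q)`, up to the mass of the paths of `X` through the bad lost sites. -/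
theorem cost {Q R1 : ℝ≥0∞} (hQ : 1 ≤ Q) (hR1 : 1 ≤ R1)
    (h1 : ∀ i y, y ∈ Ts st p W f0 fX c i → W1 i y = W i y)
    (h2 : ∀ i y, y ∉ Ts st p W f0 fX c i → y + u ∉ Ts st p W f0 fX c i → W1 i y = W i (y + u)) (n : ℕ)
    (hgood : ∀ i, i ≤ n → ∀ y, Lr st p W f0 i y + c * Lr st p W fX i y ≤
      Q * ((Lr st p W f0 i y - c * Lr st p W fX i y) + (c * Lr st p W fX i y - Lr st p W f0 i y))) :
    ∑' y, Lr st p W f0 n y + c * ∑' y, Lr st p W fX n y ≤ Q * ((1 + R1 * Q) * ∑' y, Mr st p W1 f0 fX c u n y +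
      c * ∑ i ∈ Finset.range (n + 1), ∑' v, (bad st p W f0 fX c u R1 i).indicator
        (fun v => Lr st p W fX i v * Fr st p W (n - i) i v) v) := by
  classical
  have hR : 1 ≤ R1 * Q := one_le_mul hR1 hQ
  set b : ℕ → S → ℝ≥0∞ := fun i v => if i ≤ n then
    (bad st p W f0 fX c u R1 i).indicator (fun v => c * Lr st p W fX i v) v else c * Lr st p W fX i v with hb
  have hb1 : ∀ i v, v ∈ lost st p W f0 fX c u i → c * Lr st p W fX i v ≤
      Lr st p W f0 i v + (R1 * Q) * Mr st p W1 f0 fX c u i (v - u) + b i v := by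
    intro i v hv
    by_cases hi : i ≤ n
    · by_cases hbad : v ∈ bad st p W f0 fX c u R1 i
      · have e1 : b i v = c * Lr st p W fX i v := by
          simp only [hb]
          rw [if_pos hi, Set.indicator_of_mem hbad]
        rw [e1]
        exact le_add_self
      · have h3 : Lr st p W fX i v ≤ R1 * Lr st p W fX i (v - u) := by
          by_contra h4
          exact hbad ⟨hv, h4⟩
        have h4 : c * Lr st p W fX i (v - u) ≤ Lr st p W f0 i (v - u) := hv.2.2
        have h5 := hgood i hi (v - u)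
        rw [tsub_eq_zero_of_le h4, add_zero] at h5
        have h6 : Lr st p W f0 i (v - u) - c * Lr st p W fX i (v - u) ≤ Mr st p W1 f0 fX c u i (v - u) :=
          tsub_le_iff_right.2 (dplus h1 i (v - u))
        calc c * Lr st p W fX i v ≤ c * (R1 * Lr st p W fX i (v - u)) := mul_le_mul_right h3 _
          _ = R1 * (c * Lr st p W fX i (v - u)) := by ring
          _ ≤ R1 * (Lr st p W f0 i (v - u) + c * Lr st p W fX i (v - u)) := mul_le_mul_right le_add_self _
          _ ≤ R1 * (Q * Mr st p W1 f0 fX c u i (v - u)) :=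
            mul_le_mul_right (h5.trans (mul_le_mul_right h6 _)) _
          _ = (R1 * Q) * Mr st p W1 f0 fX c u i (v - u) := by ring
          _ ≤ Lr st p W f0 i v + (R1 * Q) * Mr st p W1 f0 fX c u i (v - u) := le_add_self
          _ ≤ _ := le_self_add
    · have e1 : b i v = c * Lr st p W fX i v := by
        simp only [hb]
        rw [if_neg hi]
      rw [e1]
      exact le_add_self
  have h7 := tsum_dminus_le hR h2 hb1 n
  have h8 := tsum_dplus_le (fX := fX) (u := u) h1 n
  have h9 : ∑ i ∈ Finset.range (n + 1), ∑' v, b i v * Fr st p W (n - i) i v =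
      c * ∑ i ∈ Finset.range (n + 1), ∑' v, (bad st p W f0 fX c u R1 i).indicator
        (fun v => Lr st p W fX i v * Fr st p W (n - i) i v) v := by
    rw [Finset.mul_sum]
    refine Finset.sum_congr rfl fun i hi => ?_
    rw [← ENNReal.tsum_mul_left]
    refine tsum_congr fun v => ?_
    simp only [hb]
    rw [if_pos (Nat.lt_succ_iff.1 (Finset.mem_range.1 hi))]
    by_cases hv : v ∈ bad st p W f0 fX c u R1 i
    · rw [Set.indicator_of_mem hv, Set.indicator_of_mem hv]
      ring
    · rw [Set.indicator_of_notMem hv, Set.indicator_of_notMem hv, zero_mul, mul_zero]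
  rw [h9] at h7
  calc ∑' y, Lr st p W f0 n y + c * ∑' y, Lr st p W fX n y
      = ∑' y, (Lr st p W f0 n y + c * Lr st p W fX n y) := by rw [ENNReal.tsum_add, ENNReal.tsum_mul_left]
    _ ≤ ∑' y, Q * ((Lr st p W f0 n y - c * Lr st p W fX n y) + (c * Lr st p W fX n y - Lr st p W f0 n y)) :=
      ENNReal.tsum_le_tsum fun y => hgood n le_rfl y
    _ = Q * (∑' y, (Lr st p W f0 n y - c * Lr st p W fX n y) + ∑' y, (c * Lr st p W fX n y - Lr st p W f0 n y)) := by
      rw [ENNReal.tsum_mul_left, ENNReal.tsum_add]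
    _ ≤ Q * (∑' y, Mr st p W1 f0 fX c u n y + ((R1 * Q) * ∑' y, Mr st p W1 f0 fX c u n y +
        c * ∑ i ∈ Finset.range (n + 1), ∑' v, (bad st p W f0 fX c u R1 i).indicator
          (fun v => Lr st p W fX i v * Fr st p W (n - i) i v) v)) :=
      mul_le_mul_right (add_le_add h8 h7) _
    _ = _ := by ring

/-- **FAR+**: the mass of `0` is kept up to `c` times the mass of `X`. -/
theorem far_plus (h1 : ∀ i y, y ∈ Ts st p W f0 fX c i → W1 i y = W i y) (n : ℕ) :
    ∑' y, Lr st p W f0 n y ≤ ∑' y, Mr st p W1 f0 fX c u n y + c * ∑' y, Lr st p W fX n y := by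
  rw [← ENNReal.tsum_mul_left, ← ENNReal.tsum_add]
  exact ENNReal.tsum_le_tsum fun y => dplus h1 n y

/-- **FAR-**: the mass of `X` is kept up to a multiple of the mass of `0` and up to the mass of the paths of `X` through the
bad lost sites. -/
theorem far_minus {R1 R2 : ℝ≥0∞}
    (h2 : ∀ i y, y ∉ Ts st p W f0 fX c i → y + u ∉ Ts st p W f0 fX c i → W1 i y = W i (y + u)) (n : ℕ) :
    c * ∑' y, Lr st p W fX n y ≤ ∑' y, Mr st p W1 f0 fX c u n y +
      (1 + (n + 1) * (R1 * R2)) * ∑' y, Lr st p W f0 n y +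
        c * ∑ i ∈ Finset.range (n + 1), ∑' v, (bad2 st p W f0 fX c u R1 R2 n i).indicator
          (fun v => Lr st p W fX i v * Fr st p W (n - i) i v) v := by
  classical
  set b : ℕ → S → ℝ≥0∞ := fun i v => (lost st p W f0 fX c u i).indicator (fun v => c * Lr st p W fX i v) v with hb
  have hb1 : ∀ i v, v ∈ lost st p W f0 fX c u i → c * Lr st p W fX i v ≤
      Lr st p W f0 i v + 1 * Mr st p W1 f0 fX c u i (v - u) + b i v := by
    intro i v hv
    have e1 : b i v = c * Lr st p W fX i v := by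
      simp only [hb]
      rw [Set.indicator_of_mem hv]
    rw [e1]
    exact le_add_self
  have h3 := fun y => dminus (le_refl (1 : ℝ≥0∞)) h2 hb1 n y
  have h4 : c * ∑' y, Lr st p W fX n y ≤ ∑' y, Lr st p W f0 n y + ∑' y, Mr st p W1 f0 fX c u n y +
      ∑ i ∈ Finset.range (n + 1), ∑' v, b i v * Fr st p W (n - i) i v := by
    rw [← ENNReal.tsum_mul_left]
    refine (ENNReal.tsum_le_tsum h3).trans ?_
    simp only [one_mul]
    rw [ENNReal.tsum_add, ENNReal.tsum_add, tsum_sub (fun y => Mr st p W1 f0 fX c u n y) u]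
    exact add_le_add le_rfl (tsum_Er_le b n)
  have h5 : ∀ i ∈ Finset.range (n + 1), ∑' v, b i v * Fr st p W (n - i) i v ≤
      (R1 * R2) * ∑' y, Lr st p W f0 n y + c * ∑' v, (bad2 st p W f0 fX c u R1 R2 n i).indicator
          (fun v => Lr st p W fX i v * Fr st p W (n - i) i v) v := by
    intro i hi
    have hi' : i ≤ n := Nat.lt_succ_iff.1 (Finset.mem_range.1 hi)
    rw [dual_le st p W f0 hi', ← tsum_sub (fun v => Lr st p W f0 i v * Fr st p W (n - i) i v) u,
      ← ENNReal.tsum_mul_left, ← ENNReal.tsum_mul_left, ← ENNReal.tsum_add]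
    refine ENNReal.tsum_le_tsum fun v => ?_
    simp only [hb]
    by_cases hv : v ∈ lost st p W f0 fX c u i
    · rw [Set.indicator_of_mem hv]
      by_cases hv2 : v ∈ bad2 st p W f0 fX c u R1 R2 n i
      · rw [Set.indicator_of_mem hv2, mul_assoc c]
        exact le_add_self
      · have h6 : Lr st p W fX i v ≤ R1 * Lr st p W fX i (v - u) ∧
            Fr st p W (n - i) i v ≤ R2 * Fr st p W (n - i) i (v - u) := by
          by_contra h7
          exact hv2 ⟨hv, h7⟩
        have h7 : c * Lr st p W fX i (v - u) ≤ Lr st p W f0 i (v - u) := hv.2.2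
        rw [Set.indicator_of_notMem hv2, mul_zero, add_zero]
        calc c * Lr st p W fX i v * Fr st p W (n - i) i v
            ≤ c * (R1 * Lr st p W fX i (v - u)) * (R2 * Fr st p W (n - i) i (v - u)) :=
              mul_le_mul' (mul_le_mul_right h6.1 _) h6.2
          _ = (R1 * R2) * ((c * Lr st p W fX i (v - u)) * Fr st p W (n - i) i (v - u)) := by ring
          _ ≤ _ := mul_le_mul_right (mul_le_mul_left h7 _) _
    · rw [Set.indicator_of_notMem hv, zero_mul]
      exact bot_le
  have h6 := Finset.sum_le_sum h5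
  rw [Finset.sum_add_distrib, Finset.sum_const, Finset.card_range, nsmul_eq_mul, ← Finset.mul_sum] at h6
  refine (h4.trans (add_le_add le_rfl h6)).trans (le_of_eq ?_)
  push_cast
  ring

end

end

end Pool.Agent.W_7d29a1_UD27
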